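import Pool.Agent.H743.JL.StmZ
import Pool.Agent.H464.XB.Lv
import Pool.Agent.H464.XB.Ker

/-!
# JZ-D15: the data of the twists of `X_0(15)` (helper199)
-/

set_option autoImplicit false
set_option linter.all false

open scoped Classical

namespace Pool.Agent.H199.JZ

open Pool.Agent.H743.JL
open Pool.Agent.H464.XB
open Pool.Agent.H757_X15 (WD)
open Pool.Agent.XV.T.T35 (WC)
open Pool.Agent.W97.MT (affCount)

theorem neg_of {m : ℤ} (hs : Squarefree m) (hF : Fam 0 m) : T.Neg m := ⟨hF.1, hs, hF.2⟩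

/-- `c₄`, `c₆` -/
theorem c4_WC (k : ℤ) : (WC k).c₄ = 481 * (4 * k + 1) ^ 2 := by
  unfold WC WeierstrassCurve.c₄ WeierstrassCurve.b₂ WeierstrassCurve.b₄
  ring

theorem c6_WC (k : ℤ) : (WC k).c₆ = 4879 * (4 * k + 1) ^ 3 := by
  unfold WC WeierstrassCurve.c₆ WeierstrassCurve.b₂ WeierstrassCurve.b₄ WeierstrassCurve.b₆
  ring

/-- `p ^ 12` does not divide the discriminant -/
theorem no_twelve {m : ℤ} (hs : Squarefree m) (hm : m ≠ 0) {p : ℕ} (hp : p.Prime)
    (h : (p : ℤ) ^ 12 ∣ (3 ^ 4 * 5 ^ 4) * m ^ 6) : False := by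
  have h1 : p ^ 12 ∣ 15 ^ 4 * m.natAbs ^ 6 := by
    have h2 := Int.natAbs_dvd_natAbs.2 h
    rw [Int.natAbs_pow, Int.natAbs_natCast, Int.natAbs_mul, Int.natAbs_pow] at h2
    have e : ((3 : ℤ) ^ 4 * 5 ^ 4).natAbs = 15 ^ 4 := by norm_num
    rwa [e] at h2
  have hn : m.natAbs ≠ 0 := Int.natAbs_ne_zero.2 hm
  have hns : Squarefree m.natAbs := Int.squarefree_natAbs.2 hs
  have hne : 15 ^ 4 * m.natAbs ^ 6 ≠ 0 := mul_ne_zero (by norm_num) (pow_ne_zero _ hn)
  rw [hp.pow_dvd_iff_le_factorization hne, Nat.factorization_mul (by norm_num) (pow_ne_zero _ hn),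
    Nat.factorization_pow, Nat.factorization_pow] at h1
  simp only [Finsupp.coe_add, Finsupp.coe_smul, Pi.add_apply, Pi.smul_apply, smul_eq_mul] at h1
  have h2 := hns.natFactorization_le_one p
  have h3 : Nat.factorization 15 p ≤ 1 := by
    have h4 : Squarefree 15 := by
      have h5 : (15 : ℕ) = 3 * 5 := by norm_num
      rw [h5, Nat.squarefree_mul (by norm_num)]
      exact ⟨Nat.prime_three.prime.squarefree, Nat.prime_five.prime.squarefree⟩
    exact h4.natFactorization_le_one p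
  omega

/-- an affine point modulo `p` -/
theorem aff_pos (k : ℤ) {p : ℕ} (hp : p.Prime) : 0 < affCount (WC k) p := by
  haveI := Fact.mk hp
  unfold affCount
  refine Nat.card_pos_iff.2 ⟨⟨⟨((-(4 * k + 1) : ℤ), ((2 * k : ℤ))), ?_⟩⟩, inferInstance⟩
  rw [WeierstrassCurve.Affine.equation_iff]
  simp only [WeierstrassCurve.map, WC]
  push_cast
  simp only [eq_intCast]
  push_cast
  ring

theorem redei_iff (n d : ℕ) : Redei n d ↔ Red n d := Iff.rfl

/-- (D15) -/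
theorem t_D15 (h1 : S_GM) (h2 : S_RD) : S_D15 := by
  intro m hs hF
  have hN := neg_of hs hF
  have hm0 : m < 0 := hF.1
  have h60 : m % 60 = 13 ∨ m % 60 = 37 := hF.2
  have hm4 : m % 4 = 1 := hN.m4
  have hsn : Squarefree m.natAbs := Int.squarefree_natAbs.2 hs
  have hn4 : m.natAbs % 4 = 3 := by omega
  have hn1 : 1 < m.natAbs := by omega
  obtain ⟨k, hk⟩ : ∃ k, m = 4 * k + 1 := ⟨m / 4, by omega⟩
  have hW : WD m = WC k := T.WD_eq k hk
  have hΔ : (WD m).Δ = (3 ^ 4 * 5 ^ 4) * m ^ 6 := Pool.Agent.H757_X15.Delta_WD hm4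
  -- the criterion
  have hgood : (∀ d : ℕ, Redei m.natAbs d → d = 1 ∨ d = m.natAbs) ↔ H4 m := by
    rw [h2 m.natAbs hsn hn4]
    have e : (-((m.natAbs : ℕ) : ℤ)) = m := by omega
    rw [e]
    exact h1 m hm0 (by omega) hs
  have hkr : Pool.Agent.XV.Kr m.natAbs.primeFactors ↔ H4 m := by
    rw [← hgood]
    exact kr_red hsn
  have hfin : T.FinSha (T.EQ m) ↔ H4 m := by
    rw [T.finSha_iff hN, nx_eq hsn hn4, ← card_red hsn (by omega), card_two hsn hn1, ← hgood]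
    exact Iff.rfl
  obtain ⟨f, hf, hO, y, hv, hy⟩ := lval hN
  refine ⟨WD m, f, m, hf, Or.inl rfl, ?_, ?_, ?_, ?_, ?_, ?_, hfin, ?_⟩
  · rw [hΔ]
    exact mul_ne_zero (by norm_num) (pow_ne_zero _ hm0.ne)
  · rw [hW, c4_WC, ← hk]
  · rw [hW, c6_WC, ← hk]
  · rw [hΔ]
    exact Dvd.intro (3 ^ 3 * 5 ^ 4 * m ^ 6) (by ring)
  · intro p hp _ h
    rw [hΔ] at h
    exact no_twelve hs hm0.ne hp h
  · intro p hp
    rw [hW]
    exact aff_pos k hp
  · intro hH h0
    have hodd : Odd y := hy.2 (hkr.2 hH)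
    have hy0 : (y : ℝ) ≠ 0 := by
      intro h
      have h' : y = 0 := by exact_mod_cast h
      rw [h'] at hodd
      exact absurd hodd (by decide)
    rw [hv] at h0
    have h3 : ((y : ℝ) ^ 2 * 4 ^ m.natAbs.primeFactors.card * Pool.Agent.Y700.Omega (WD m) / 4 : ℝ) = 0 := by
      exact_mod_cast h0
    have h4 : (y : ℝ) ^ 2 * 4 ^ m.natAbs.primeFactors.card * Pool.Agent.Y700.Omega (WD m) / 4 ≠ 0 := by
      have := hO.ne'
      positivity
    exact h4 h3

end Pool.Agent.H199.JZ
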